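import Pool.Agent.H84.Pnt.Psi

/-!
# The prime number theorem for `π`
-/

set_option autoImplicit false

open MeasureTheory

namespace Pool.Agent.H84.Pnt

noncomputable section

theorem int_log_pow (k : ℕ) {a b : ℝ} (ha : 1 < a) (hb : 1 < b) :
    IntervalIntegrable (fun t : ℝ => 1 / Real.log t ^ k) volume a b := by
  refine ContinuousOn.intervalIntegrable fun x hx ↦ ContinuousAt.continuousWithinAt ?_
  have h1 : 1 < x := by
    rw [Set.mem_uIcc] at hx
    rcases hx with h | h <;> linarith [h.1, h.2]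
  have h2 : x ≠ 0 := by linarith
  have h3 : Real.log x ^ k ≠ 0 := pow_ne_zero _ (Real.log_pos h1).ne'
  fun_prop

theorem integral_log_pow_le (k : ℕ) {a b : ℝ} (hab : a ≤ b) (ha : 1 < a) :
    ∫ t in a..b, 1 / Real.log t ^ k ≤ (b - a) / Real.log a ^ k := by
  have hla : 0 < Real.log a := Real.log_pos ha
  have h := intervalIntegral.integral_mono_on hab (int_log_pow k ha (by linarith))
    (intervalIntegrable_const (c := 1 / Real.log a ^ k)) (fun t ht => by
      rw [Set.mem_Icc] at ht
      apply one_div_le_one_div_of_le (by positivity)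
      exact pow_le_pow_left₀ hla.le (Real.log_le_log (by linarith) ht.1) k)
  rw [intervalIntegral.integral_const, smul_eq_mul, mul_one_div] at h
  exact h

theorem integral_log_pow_nonneg (k : ℕ) {a b : ℝ} (hab : a ≤ b) (ha : 1 < a) :
    0 ≤ ∫ t in a..b, 1 / Real.log t ^ k := by
  apply intervalIntegral.integral_nonneg hab
  intro t ht
  rw [Set.mem_Icc] at ht
  have : 0 < Real.log t := Real.log_pos (by linarith)
  positivity

theorem integral_log_pow_bound (k : ℕ) : ∃ C : ℝ, 0 < C ∧ ∀ x : ℝ, 2 ≤ x →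
    ∫ t in (2 : ℝ)..x, 1 / Real.log t ^ k ≤ C * (x / Real.log x ^ k) := by
  obtain ⟨C2, hC2, h2⟩ := log_pow_le k (1 / 2) (by norm_num)
  have hl2 : 0 < Real.log 2 := Real.log_pos (by norm_num)
  refine ⟨2 ^ k + C2 / Real.log 2 ^ k + Real.log 4 ^ k / Real.log 2 ^ k, by positivity, fun x hx => ?_⟩
  have hx0 : 0 < x := by linarith
  have hlx : 0 < Real.log x := Real.log_pos (by linarith)
  have hY0 : 0 < x / Real.log x ^ k := by positivity
  rcases lt_or_ge x 4 with h | h
  · have h3 := integral_log_pow_le k hx (by norm_num)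
    have h4 : (x - 2) / Real.log 2 ^ k ≤ Real.log 4 ^ k / Real.log 2 ^ k * (x / Real.log x ^ k) := by
      rw [div_mul_div_comm, div_le_div_iff₀ (by positivity) (by positivity)]
      have h5 : Real.log x ^ k ≤ Real.log 4 ^ k := pow_le_pow_left₀ hlx.le (Real.log_le_log hx0 h.le) k
      calc (x - 2) * (Real.log 2 ^ k * Real.log x ^ k) ≤ x * (Real.log 2 ^ k * Real.log 4 ^ k) := by
            apply mul_le_mul (by linarith) _ (by positivity) hx0.le
            exact mul_le_mul_of_nonneg_left h5 (by positivity)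
        _ = _ := by ring
    have h5 : 0 ≤ (2 ^ k + C2 / Real.log 2 ^ k) * (x / Real.log x ^ k) := by positivity
    have e : (2 ^ k + C2 / Real.log 2 ^ k + Real.log 4 ^ k / Real.log 2 ^ k) * (x / Real.log x ^ k) =
      (2 ^ k + C2 / Real.log 2 ^ k) * (x / Real.log x ^ k) + Real.log 4 ^ k / Real.log 2 ^ k * (x / Real.log x ^ k) := by
        ring
    linarith
  · have hs2 : 2 ≤ √x := Real.le_sqrt_of_sq_le (by norm_num; exact h)
    have hsx : √x ≤ x := by
      have h0 := Real.mul_self_sqrt hx0.le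
      nlinarith
    rw [← intervalIntegral.integral_add_adjacent_intervals (int_log_pow k (by norm_num) (show (1 : ℝ) < √x by linarith))
      (int_log_pow k (show (1 : ℝ) < √x by linarith) (show (1 : ℝ) < x by linarith))]
    have h3 := integral_log_pow_le k hs2 (by norm_num)
    have h4 := integral_log_pow_le k hsx (by linarith)
    rw [Real.log_sqrt hx0.le, div_pow] at h4
    have h5 : (x - √x) / (Real.log x ^ k / 2 ^ k) ≤ 2 ^ k * (x / Real.log x ^ k) := by
      have e : (2 : ℝ) ^ k * (x / Real.log x ^ k) = x / (Real.log x ^ k / 2 ^ k) := by field_simp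
      rw [e]
      apply div_le_div_of_nonneg_right _ (by positivity)
      linarith [Real.sqrt_nonneg x]
    have h6 : (√x - 2) / Real.log 2 ^ k ≤ C2 / Real.log 2 ^ k * (x / Real.log x ^ k) := by
      rw [div_mul_eq_mul_div]
      apply div_le_div_of_nonneg_right _ (by positivity)
      rw [mul_div_assoc', le_div_iff₀ (by positivity)]
      have h7 := h2 x (by linarith)
      rw [← Real.sqrt_eq_rpow] at h7
      calc (√x - 2) * Real.log x ^ k ≤ √x * (C2 * √x) := by
            apply mul_le_mul (by linarith) h7 (by positivity) (by positivity)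
        _ = C2 * (√x * √x) := by ring
        _ = C2 * x := by rw [Real.mul_self_sqrt hx0.le]
    have h7 : 0 ≤ Real.log 4 ^ k / Real.log 2 ^ k * (x / Real.log x ^ k) := by
      have : 0 < Real.log 4 := Real.log_pos (by norm_num)
      positivity
    have e : (2 ^ k + C2 / Real.log 2 ^ k + Real.log 4 ^ k / Real.log 2 ^ k) * (x / Real.log x ^ k) =
      2 ^ k * (x / Real.log x ^ k) + C2 / Real.log 2 ^ k * (x / Real.log x ^ k) +
        Real.log 4 ^ k / Real.log 2 ^ k * (x / Real.log x ^ k) := by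
        ring
    linarith

/-- Integration by parts. -/
theorem integral_log_pow_parts (k : ℕ) {x : ℝ} (hx : 2 ≤ x) :
    ∫ t in (2 : ℝ)..x, 1 / Real.log t ^ k =
      x / Real.log x ^ k - 2 / Real.log 2 ^ k + k * ∫ t in (2 : ℝ)..x, 1 / Real.log t ^ (k + 1) := by
  have hd : ∀ t ∈ Set.uIcc 2 x, HasDerivAt (fun t : ℝ => t / Real.log t ^ k)
      (1 / Real.log t ^ k - k * (1 / Real.log t ^ (k + 1))) t := by
    intro t ht
    rw [Set.uIcc_of_le hx, Set.mem_Icc] at ht
    have ht0 : t ≠ 0 := by linarith [ht.1]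
    have hlt : 0 < Real.log t := Real.log_pos (by linarith [ht.1])
    have h1 : HasDerivAt (fun t : ℝ => Real.log t ^ k) (k * Real.log t ^ (k - 1) * t⁻¹) t :=
      (Real.hasDerivAt_log ht0).pow k
    have h2 : HasDerivAt (fun t : ℝ => t / Real.log t ^ k)
        ((1 * Real.log t ^ k - t * (k * Real.log t ^ (k - 1) * t⁻¹)) / (Real.log t ^ k) ^ 2) t :=
      (hasDerivAt_id t).div h1 (pow_ne_zero _ hlt.ne')
    refine h2.congr_deriv ?_
    rcases Nat.eq_zero_or_pos k with hk | hk
    · subst hk; simp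
    · obtain ⟨m, rfl⟩ : ∃ m, k = m + 1 := ⟨k - 1, by omega⟩
      simp only [Nat.add_sub_cancel]
      field_simp
      ring
  have hint : IntervalIntegrable (fun t : ℝ => 1 / Real.log t ^ k - k * (1 / Real.log t ^ (k + 1))) volume 2 x :=
    (int_log_pow k (by norm_num) (by linarith)).sub ((int_log_pow (k + 1) (by norm_num) (by linarith)).const_mul _)
  have h := intervalIntegral.integral_eq_sub_of_hasDerivAt hd hint
  rw [intervalIntegral.integral_sub (int_log_pow k (by norm_num) (by linarith))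
    ((int_log_pow (k + 1) (by norm_num) (by linarith)).const_mul _), intervalIntegral.integral_const_mul] at h
  linarith

/-- `π(x) = x / log x + ∫_2^x dt / (log t)^2 + O(x / (log x) ^ K)`. -/
theorem pi_bound_aux (K : ℕ) : ∃ C : ℝ, 0 < C ∧ ∀ x : ℝ, 2 ≤ x →
    |(Nat.primeCounting ⌊x⌋₊ : ℝ) - (x / Real.log x + ∫ t in (2 : ℝ)..x, 1 / Real.log t ^ 2)| ≤
      C * (x / Real.log x ^ (K + 1)) := by
  obtain ⟨C1, hC1, h1⟩ := theta_bound K
  obtain ⟨C2, hC2, h2⟩ := integral_log_pow_bound (K + 2)
  have hl2 : 0 < Real.log 2 := Real.log_pos (by norm_num)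
  refine ⟨C1 + C1 * C2 / Real.log 2, by positivity, fun x hx => ?_⟩
  have hx0 : 0 < x := by linarith
  have hlx : 0 < Real.log x := Real.log_pos (by linarith)
  have hlx2 : Real.log 2 ≤ Real.log x := Real.log_le_log (by norm_num) hx
  rw [Chebyshev.primeCounting_eq_theta_div_log_add_integral hx]
  have hi1 : IntervalIntegrable (fun t : ℝ => Chebyshev.theta t / (t * Real.log t ^ 2)) volume 2 x := by
    rw [intervalIntegrable_iff, Set.uIoc_of_le hx, ← integrableOn_Icc_iff_integrableOn_Ioc]
    exact Chebyshev.integrableOn_theta_div_id_mul_log_sq x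
  have hi2 := int_log_pow 2 (show (1 : ℝ) < 2 by norm_num) (show 1 < x by linarith)
  have e1 : Chebyshev.theta x / Real.log x + (∫ t in (2 : ℝ)..x, Chebyshev.theta t / (t * Real.log t ^ 2)) -
      (x / Real.log x + ∫ t in (2 : ℝ)..x, 1 / Real.log t ^ 2) =
      (Chebyshev.theta x - x) / Real.log x +
        ∫ t in (2 : ℝ)..x, (Chebyshev.theta t / (t * Real.log t ^ 2) - 1 / Real.log t ^ 2) := by
    rw [intervalIntegral.integral_sub hi1 hi2]
    ring
  rw [e1]
  refine (abs_add_le _ _).trans ?_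
  have h3 : |(Chebyshev.theta x - x) / Real.log x| ≤ C1 * (x / Real.log x ^ (K + 1)) := by
    rw [abs_div, abs_of_pos hlx, div_le_iff₀ hlx]
    refine (h1 x hx).trans (le_of_eq ?_)
    rw [pow_succ]
    field_simp
  have h4 : |∫ t in (2 : ℝ)..x, (Chebyshev.theta t / (t * Real.log t ^ 2) - 1 / Real.log t ^ 2)| ≤
      C1 * ∫ t in (2 : ℝ)..x, 1 / Real.log t ^ (K + 2) := by
    rw [← intervalIntegral.integral_const_mul]
    have h5 := intervalIntegral.norm_integral_le_of_norm_le (μ := volume) hx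
      (f := fun t : ℝ => Chebyshev.theta t / (t * Real.log t ^ 2) - 1 / Real.log t ^ 2)
      (g := fun t : ℝ => C1 * (1 / Real.log t ^ (K + 2))) ?_ ?_
    · exact h5
    · refine Filter.Eventually.of_forall fun t ht => ?_
      rw [Set.mem_Ioc] at ht
      have ht0 : 0 < t := by linarith [ht.1]
      have hlt : 0 < Real.log t := Real.log_pos (by linarith [ht.1])
      have e2 : Chebyshev.theta t / (t * Real.log t ^ 2) - 1 / Real.log t ^ 2 =
          (Chebyshev.theta t - t) / (t * Real.log t ^ 2) := by field_simp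
      rw [e2, Real.norm_eq_abs, abs_div, abs_of_pos (show 0 < t * Real.log t ^ 2 by positivity),
        div_le_iff₀ (by positivity)]
      refine (h1 t ht.1.le).trans (le_of_eq ?_)
      rw [pow_add]
      field_simp
    · exact (int_log_pow (K + 2) (by norm_num) (by linarith)).const_mul _
  have h5 := h2 x hx
  have h6 : x / Real.log x ^ (K + 2) ≤ 1 / Real.log 2 * (x / Real.log x ^ (K + 1)) := by
    rw [one_div_mul_eq_div, div_div, div_le_div_iff_of_pos_left hx0 (by positivity) (by positivity)]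
    rw [pow_succ (Real.log x) (K + 1)]
    exact mul_le_mul_of_nonneg_left hlx2 (by positivity)
  calc |(Chebyshev.theta x - x) / Real.log x| +
        |∫ t in (2 : ℝ)..x, (Chebyshev.theta t / (t * Real.log t ^ 2) - 1 / Real.log t ^ 2)|
      ≤ C1 * (x / Real.log x ^ (K + 1)) + C1 * (C2 * (1 / Real.log 2 * (x / Real.log x ^ (K + 1)))) := by
        refine add_le_add h3 (h4.trans ?_)
        apply mul_le_mul_of_nonneg_left _ hC1.le
        exact h5.trans (mul_le_mul_of_nonneg_left h6 hC2.le)
    _ = _ := by ring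

/-- **The prime number theorem** with the logarithmic integral, saving any power of the logarithm. -/
theorem pi_Li (K : ℕ) : ∃ C : ℝ, 0 < C ∧ ∀ x : ℝ, 2 ≤ x →
    |(Nat.primeCounting ⌊x⌋₊ : ℝ) - ∫ t in (2 : ℝ)..x, 1 / Real.log t| ≤ C * (x / Real.log x ^ K) := by
  obtain ⟨C1, hC1, h1⟩ := pi_bound_aux K
  obtain ⟨C2, hC2, h2⟩ := log_pow_le K 1 (by norm_num)
  have hl2 : 0 < Real.log 2 := Real.log_pos (by norm_num)
  refine ⟨C1 / Real.log 2 + 2 / Real.log 2 * C2, by positivity, fun x hx => ?_⟩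
  have hx0 : 0 < x := by linarith
  have hlx : 0 < Real.log x := Real.log_pos (by linarith)
  have hlx2 : Real.log 2 ≤ Real.log x := Real.log_le_log (by norm_num) hx
  have h3 := integral_log_pow_parts 1 hx
  simp only [pow_one, Nat.cast_one, one_mul] at h3
  rw [h3]
  have h4 := h1 x hx
  have h5 : x / Real.log x ^ (K + 1) ≤ 1 / Real.log 2 * (x / Real.log x ^ K) := by
    rw [one_div_mul_eq_div, div_div, div_le_div_iff_of_pos_left hx0 (by positivity) (by positivity)]
    rw [pow_succ (Real.log x) K]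
    exact mul_le_mul_of_nonneg_left hlx2 (by positivity)
  have h6 : 1 ≤ C2 * (x / Real.log x ^ K) := by
    rw [mul_div_assoc', le_div_iff₀ (by positivity), one_mul]
    have := h2 x (by linarith)
    rwa [Real.rpow_one] at this
  have h7 : C1 * (x / Real.log x ^ (K + 1)) ≤ C1 * (1 / Real.log 2 * (x / Real.log x ^ K)) :=
    mul_le_mul_of_nonneg_left h5 hC1.le
  have h8 : 2 / Real.log 2 ≤ 2 / Real.log 2 * (C2 * (x / Real.log x ^ K)) :=
    le_mul_of_one_le_right (by positivity) h6
  have h9 : 0 < 2 / Real.log 2 := by positivity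
  have e : (C1 / Real.log 2 + 2 / Real.log 2 * C2) * (x / Real.log x ^ K) =
      C1 * (1 / Real.log 2 * (x / Real.log x ^ K)) + 2 / Real.log 2 * (C2 * (x / Real.log x ^ K)) := by ring
  rw [e]
  rw [abs_le] at h4 ⊢
  constructor <;> linarith [h4.1, h4.2]

/-- **The prime number theorem** with the second order term. -/
theorem pi_two : ∃ C : ℝ, 0 < C ∧ ∀ x : ℝ, 2 ≤ x →
    |(Nat.primeCounting ⌊x⌋₊ : ℝ) - (x / Real.log x + x / Real.log x ^ 2)| ≤ C * (x / Real.log x ^ 3) := by
  obtain ⟨C1, hC1, h1⟩ := pi_bound_aux 2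
  obtain ⟨C3, hC3, h3⟩ := integral_log_pow_bound 3
  obtain ⟨C2, hC2, h2⟩ := log_pow_le 3 1 (by norm_num)
  have hl2 : 0 < Real.log 2 := Real.log_pos (by norm_num)
  refine ⟨C1 + 2 * C3 + 2 / Real.log 2 ^ 2 * C2, by positivity, fun x hx => ?_⟩
  have hx0 : 0 < x := by linarith
  have hlx : 0 < Real.log x := Real.log_pos (by linarith)
  have h4 := h1 x hx
  have h5 := integral_log_pow_parts 2 hx
  have h6 := h3 x hx
  have h7 := integral_log_pow_nonneg 3 hx (by norm_num : (1 : ℝ) < 2)
  norm_num at h5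
  simp only [one_div] at h4 h6 h7
  have h8 : 1 ≤ C2 * (x / Real.log x ^ 3) := by
    rw [mul_div_assoc', le_div_iff₀ (by positivity), one_mul]
    have := h2 x (by linarith)
    rwa [Real.rpow_one] at this
  have h9 : 2 / Real.log 2 ^ 2 ≤ 2 / Real.log 2 ^ 2 * (C2 * (x / Real.log x ^ 3)) :=
    le_mul_of_one_le_right (by positivity) h8
  have h10 : 0 < 2 / Real.log 2 ^ 2 := by positivity
  have e : (C1 + 2 * C3 + 2 / Real.log 2 ^ 2 * C2) * (x / Real.log x ^ 3) = C1 * (x / Real.log x ^ 3) +
      2 * (C3 * (x / Real.log x ^ 3)) + 2 / Real.log 2 ^ 2 * (C2 * (x / Real.log x ^ 3)) := by ring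
  rw [e]
  norm_num at h4
  rw [h5] at h4
  have h11 : 0 < C3 * (x / Real.log x ^ 3) := by positivity
  rw [abs_le] at h4 ⊢
  constructor <;> linarith [h4.1, h4.2]

end

end Pool.Agent.H84.Pnt
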