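import Pool.Agent.H84.Pnt.Mob

/-!
# The Dirichlet divisor estimate

`∑_{n ≤ N} (log n - τ(n) + 2γ) = O(√N)`.
-/

set_option autoImplicit false

open Finset ArithmeticFunction

namespace Pool.Agent.H84.Pnt

theorem log_step (N : ℕ) (hN : 1 ≤ N) :
    1 / ((N : ℝ) + 1) ≤ Real.log (N + 1) - Real.log N ∧ Real.log (N + 1) - Real.log N ≤ 1 / N := by
  have hN0 : (0 : ℝ) < N := by exact_mod_cast hN
  have h0 : (0 : ℝ) < N + 1 := by positivity
  rw [← Real.log_div h0.ne' hN0.ne']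
  constructor
  · have h1 := Real.one_sub_inv_le_log_of_pos (show (0 : ℝ) < (N + 1) / N by positivity)
    refine le_trans (le_of_eq ?_) h1
    field_simp
    ring
  · have h1 := Real.log_le_sub_one_of_pos (show (0 : ℝ) < (N + 1) / N by positivity)
    refine h1.trans (le_of_eq ?_)
    field_simp
    ring

/-- Stirling. -/
theorem sum_log_bound (N : ℕ) (hN : 1 ≤ N) :
    1 ≤ ∑ n ∈ Ioc 0 N, Real.log n - (N * Real.log N - N) ∧
      ∑ n ∈ Ioc 0 N, Real.log n - (N * Real.log N - N) ≤ 1 + Real.log N := by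
  induction N, hN using Nat.le_induction with
  | base => simp
  | succ N hN ih =>
    have hN0 : (0 : ℝ) < N := by exact_mod_cast hN
    obtain ⟨h1, h2⟩ := log_step N hN
    obtain ⟨h3, h4⟩ := ih
    rw [Finset.sum_Ioc_succ_top (by omega)]
    push_cast
    have h5 : (N : ℝ) * (Real.log (N + 1) - Real.log N) ≤ 1 := by
      calc (N : ℝ) * (Real.log (N + 1) - Real.log N) ≤ N * (1 / N) := mul_le_mul_of_nonneg_left h2 hN0.le
        _ = 1 := by field_simp
    have h6 : 1 ≤ ((N : ℝ) + 1) * (Real.log (N + 1) - Real.log N) := by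
      calc (1 : ℝ) = ((N : ℝ) + 1) * (1 / ((N : ℝ) + 1)) := by field_simp
        _ ≤ _ := mul_le_mul_of_nonneg_left h1 (by positivity)
    constructor <;> nlinarith

/-- Dirichlet's hyperbola method. -/
theorem hyp (N : ℕ) :
    ∑ n ∈ Ioc 0 N, (N / n) + Nat.sqrt N * Nat.sqrt N = 2 * ∑ n ∈ Ioc 0 (Nat.sqrt N), (N / n) := by
  classical
  set s := Nat.sqrt N with hs
  have hss : s * s ≤ N := Nat.sqrt_le N
  have hs' : N < (s + 1) * (s + 1) := Nat.lt_succ_sqrt N
  have hsN : s ≤ N := (Nat.le_mul_self s).trans hss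
  rw [← Finset.sum_Ioc_consecutive _ (Nat.zero_le s) hsN]
  have h1 : ∀ n ∈ Ioc s N, N / n = ∑ b ∈ Ioc 0 s, if b * n ≤ N then 1 else 0 := by
    intro n hn
    rw [Finset.mem_Ioc] at hn
    have hn0 : 0 < n := by omega
    rw [← Finset.card_filter]
    have h2 : (Ioc 0 s).filter (fun b => b * n ≤ N) = Ioc 0 (N / n) := by
      ext b
      rw [Finset.mem_filter, Finset.mem_Ioc, Finset.mem_Ioc, Nat.le_div_iff_mul_le hn0]
      constructor
      · rintro ⟨⟨h3, h4⟩, h5⟩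
        exact ⟨h3, h5⟩
      · rintro ⟨h3, h4⟩
        refine ⟨⟨h3, ?_⟩, h4⟩
        by_contra hcon
        have h5 : (s + 1) * (s + 1) ≤ b * n := Nat.mul_le_mul (by omega) (by omega)
        omega
    rw [h2, Nat.card_Ioc, Nat.sub_zero]
  have h2 : ∑ n ∈ Ioc s N, N / n = ∑ b ∈ Ioc 0 s, (N / b - s) := by
    rw [Finset.sum_congr rfl h1, Finset.sum_comm]
    apply Finset.sum_congr rfl
    intro b hb
    rw [Finset.mem_Ioc] at hb
    rw [← Finset.card_filter]
    have h3 : (Ioc s N).filter (fun n => b * n ≤ N) = Ioc s (N / b) := by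
      ext n
      rw [Finset.mem_filter, Finset.mem_Ioc, Finset.mem_Ioc, Nat.le_div_iff_mul_le hb.1, mul_comm n b]
      constructor
      · rintro ⟨⟨h3, h4⟩, h5⟩
        exact ⟨h3, h5⟩
      · rintro ⟨h3, h4⟩
        exact ⟨⟨h3, (Nat.le_mul_of_pos_left n hb.1).trans h4⟩, h4⟩
    rw [h3, Nat.card_Ioc]
  have h3 : ∑ b ∈ Ioc 0 s, (N / b - s) + s * s = ∑ b ∈ Ioc 0 s, N / b := by
    have h4 : s * s = ∑ b ∈ Ioc 0 s, s := by simp
    rw [h4, ← Finset.sum_add_distrib]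
    apply Finset.sum_congr rfl
    intro b hb
    rw [Finset.mem_Ioc] at hb
    have h5 : s ≤ N / b := by
      rw [Nat.le_div_iff_mul_le hb.1]
      exact (Nat.mul_le_mul_left s hb.2).trans hss
    omega
  rw [h2]
  omega

theorem harmonic_bound (s : ℕ) (hs : 1 ≤ s) :
    0 ≤ ∑ n ∈ Ioc 0 s, (1 : ℝ) / n - (Real.log s + Real.eulerMascheroniConstant) ∧
      ∑ n ∈ Ioc 0 s, (1 : ℝ) / n - (Real.log s + Real.eulerMascheroniConstant) ≤ 1 / s := by
  have h1 := Real.eulerMascheroniSeq_lt_eulerMascheroniConstant s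
  have h2 := Real.eulerMascheroniConstant_lt_eulerMascheroniSeq' s
  unfold Real.eulerMascheroniSeq at h1
  unfold Real.eulerMascheroniSeq' at h2
  rw [if_neg (by omega)] at h2
  have h3 : ∑ n ∈ Ioc 0 s, (1 : ℝ) / n = (harmonic s : ℝ) := by
    rw [harmonic_eq_sum_Icc]
    push_cast
    rw [← Pool.Agent.GLI.Icc_one_eq]
    simp [one_div]
  rw [h3]
  have h4 := (log_step s hs).2
  constructor <;> linarith

theorem sum_tau_bound (N : ℕ) (hN : 1 ≤ N) :
    |∑ n ∈ Ioc 0 N, (((sigma 0 n : ℕ)) : ℝ) - (N * Real.log N + (2 * Real.eulerMascheroniConstant - 1) * N)| ≤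
      16 * Nat.sqrt N := by
  set s := Nat.sqrt N with hs
  have hs1 : 1 ≤ s := by rw [hs, Nat.le_sqrt]; omega
  have hss : s * s ≤ N := Nat.sqrt_le N
  have hs' : N ≤ s * s + 2 * s := by
    have : N < (s + 1) * (s + 1) := Nat.lt_succ_sqrt N
    nlinarith
  have hs0 : (0 : ℝ) < s := by exact_mod_cast hs1
  have hs1' : (1 : ℝ) ≤ s := by exact_mod_cast hs1
  have hN0 : (0 : ℝ) < N := by exact_mod_cast hN
  have hssr : (s : ℝ) * s ≤ N := by exact_mod_cast hss
  have hsr' : (N : ℝ) ≤ s * s + 2 * s := by exact_mod_cast hs'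
  have h1 : ∑ n ∈ Ioc 0 N, (((sigma 0 n : ℕ)) : ℝ) = 2 * ∑ n ∈ Ioc 0 s, ((N / n : ℕ) : ℝ) - s * s := by
    have h2 := hyp N
    rw [← sum_Ioc_sigma0_eq_sum_div] at h2
    have h3 : ((∑ n ∈ Ioc 0 N, (sigma 0) n : ℕ) : ℝ) + s * s = 2 * ((∑ n ∈ Ioc 0 s, (N / n) : ℕ) : ℝ) := by
      exact_mod_cast h2
    push_cast at h3
    linarith
  have h2 : |∑ n ∈ Ioc 0 s, ((N / n : ℕ) : ℝ) - N * ∑ n ∈ Ioc 0 s, (1 : ℝ) / n| ≤ s := by
    rw [Finset.mul_sum, ← Finset.sum_sub_distrib]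
    refine (Finset.abs_sum_le_sum_abs _ _).trans ?_
    calc ∑ n ∈ Ioc 0 s, |((N / n : ℕ) : ℝ) - N * (1 / (n : ℝ))| ≤ ∑ n ∈ Ioc 0 s, (1 : ℝ) := by
          apply Finset.sum_le_sum
          intro n hn
          rw [Finset.mem_Ioc] at hn
          have hn0 : (0 : ℝ) < n := by exact_mod_cast hn.1
          have e : (N : ℝ) * (1 / (n : ℝ)) = N / n := by ring
          rw [e, abs_le]
          have h3 : ((N / n : ℕ) : ℝ) ≤ (N : ℝ) / n := Nat.cast_div_le
          have h4 : (N : ℝ) / n < ((N / n : ℕ) : ℝ) + 1 := by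
            rw [div_lt_iff₀ hn0]
            have := Nat.lt_div_mul_add hn.1 (a := N)
            have h5 : N < (N / n + 1) * n := by rw [add_mul, one_mul]; exact this
            exact_mod_cast h5
          constructor <;> linarith
      _ = s := by simp
  obtain ⟨h3, h4⟩ := harmonic_bound s hs1
  set H := ∑ n ∈ Ioc 0 s, (1 : ℝ) / n with hH
  set Q := ∑ n ∈ Ioc 0 s, ((N / n : ℕ) : ℝ) with hQ
  set γ := Real.eulerMascheroniConstant with hγ
  have hNs : (N : ℝ) * (1 / s) ≤ 3 * s := by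
    rw [mul_one_div, div_le_iff₀ hs0]
    nlinarith
  have h5 : (N : ℝ) * (H - (Real.log s + γ)) ≤ 3 * s :=
    (mul_le_mul_of_nonneg_left h4 hN0.le).trans hNs
  have h6 : 0 ≤ (N : ℝ) * (H - (Real.log s + γ)) := mul_nonneg hN0.le h3
  -- comparison of the logarithms
  have h7 : 0 ≤ Real.log N - 2 * Real.log s := by
    have : Real.log ((s : ℝ) * s) ≤ Real.log N := Real.log_le_log (by positivity) hssr
    rw [Real.log_mul hs0.ne' hs0.ne'] at this
    linarith
  have h8 : (N : ℝ) * (Real.log N - 2 * Real.log s) ≤ 6 * s := by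
    have h9 : Real.log N - 2 * Real.log s ≤ 2 * (1 / s) := by
      have e : Real.log N - 2 * Real.log s = Real.log (N / (s * s)) := by
        rw [Real.log_div hN0.ne' (by positivity), Real.log_mul hs0.ne' hs0.ne']
        ring
      rw [e]
      refine (Real.log_le_sub_one_of_pos (by positivity)).trans ?_
      rw [sub_le_iff_le_add, div_le_iff₀ (by positivity)]
      have e2 : (2 * (1 / (s : ℝ)) + 1) * (s * s) = s * s + 2 * s := by field_simp; ring
      rw [e2]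
      exact hsr'
    calc (N : ℝ) * (Real.log N - 2 * Real.log s) ≤ N * (2 * (1 / s)) := mul_le_mul_of_nonneg_left h9 hN0.le
      _ = 2 * (N * (1 / s)) := by ring
      _ ≤ 6 * s := by linarith
  have h9 : 0 ≤ (N : ℝ) * (Real.log N - 2 * Real.log s) := mul_nonneg hN0.le h7
  rw [h1]
  rw [abs_le] at h2 ⊢
  constructor <;> nlinarith [h2.1, h2.2]

theorem sum_f_bound (N : ℕ) :
    |∑ n ∈ Ioc 0 N, (Real.log n - ((sigma 0 n : ℕ) : ℝ) + 2 * Real.eulerMascheroniConstant)| ≤ 19 * Real.sqrt N := by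
  rcases Nat.eq_zero_or_pos N with h | hN
  · subst h; simp
  have hs1 : 1 ≤ Nat.sqrt N := by rw [Nat.le_sqrt]; omega
  have h1 := sum_tau_bound N hN
  have h2 := sum_log_bound N hN
  have h3 : ∑ n ∈ Ioc 0 N, (Real.log n - ((sigma 0 n : ℕ) : ℝ) + 2 * Real.eulerMascheroniConstant) =
      ∑ n ∈ Ioc 0 N, Real.log n - ∑ n ∈ Ioc 0 N, ((sigma 0 n : ℕ) : ℝ) + 2 * Real.eulerMascheroniConstant * N := by
    rw [Finset.sum_add_distrib, Finset.sum_sub_distrib]
    simp
    ring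
  rw [h3]
  have hs : (Nat.sqrt N : ℝ) ≤ Real.sqrt N := Real.nat_sqrt_le_real_sqrt
  have hs1' : (1 : ℝ) ≤ (Nat.sqrt N : ℝ) := by exact_mod_cast hs1
  have h4 : Real.log N ≤ 2 * Nat.sqrt N := by
    have h5 : N ≤ (Nat.sqrt N + 1) ^ 2 := by
      have := Nat.lt_succ_sqrt N
      rw [Nat.succ_eq_add_one] at this
      nlinarith
    have h6 : (N : ℝ) ≤ ((Nat.sqrt N : ℝ) + 1) ^ 2 := by exact_mod_cast h5
    have h7 := Real.log_le_log (by exact_mod_cast hN) h6
    rw [Real.log_pow] at h7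
    have h8 := Real.log_le_sub_one_of_pos (show (0 : ℝ) < (Nat.sqrt N : ℝ) + 1 by positivity)
    push_cast at h7
    linarith
  set T := ∑ n ∈ Ioc 0 N, ((sigma 0 n : ℕ) : ℝ) with hT
  set S := ∑ n ∈ Ioc 0 N, Real.log n with hS
  rw [abs_le] at h1 ⊢
  constructor <;> nlinarith [h1.1, h1.2, h2.1, h2.2]

end Pool.Agent.H84.Pnt
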