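import Pool.Agent.GLI.PntCop

/-!
# The Mertens function

`∑_{n ≤ N} μ(n) = O(N / (log N) ^ A)` for every `A`, from the corresponding bound for Liouville's function.
-/

set_option autoImplicit false

open Finset ArithmeticFunction

namespace Pool.Agent.H84.Pnt

/-- Mertens' function. -/
def MM (N : ℕ) : ℤ := ∑ n ∈ Ioc 0 N, moebius n

/-- Summatory function of Liouville's function. -/
def LL (N : ℕ) : ℤ := ∑ n ∈ Ioc 0 N, Pool.Agent.GLI.lam n

theorem log_pow_le (A : ℕ) (δ : ℝ) (hδ : 0 < δ) : ∃ C : ℝ, 1 ≤ C ∧ ∀ x : ℝ, 1 ≤ x → Real.log x ^ A ≤ C * x ^ δ := by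
  set ε : ℝ := min 1 (δ / (A + 1)) with hε
  have hε0 : 0 < ε := lt_min one_pos (by positivity)
  have hε1 : ε ≤ 1 := min_le_left _ _
  refine ⟨(1 / ε) ^ A, one_le_pow₀ (by rw [one_le_div hε0]; exact hε1), fun x hx => ?_⟩
  have h1 := Real.log_le_rpow_div (by linarith : 0 ≤ x) hε0
  have h2 : 0 ≤ Real.log x := Real.log_nonneg hx
  calc Real.log x ^ A ≤ (x ^ ε / ε) ^ A := pow_le_pow_left₀ h2 h1 A
    _ = (1 / ε) ^ A * (x ^ ε) ^ A := by rw [div_pow, div_pow, one_pow]; ring
    _ = (1 / ε) ^ A * x ^ (ε * A) := by rw [← Real.rpow_natCast (x ^ ε), ← Real.rpow_mul (by linarith)]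
    _ ≤ (1 / ε) ^ A * x ^ δ := by
        apply mul_le_mul_of_nonneg_left _ (by positivity)
        apply Real.rpow_le_rpow_of_exponent_le hx
        have h3 : ε ≤ δ / (A + 1) := min_le_right _ _
        have h4 : (0 : ℝ) ≤ A := by positivity
        calc ε * A ≤ δ / (A + 1) * A := mul_le_mul_of_nonneg_right h3 h4
          _ = δ * (A / (A + 1)) := by ring
          _ ≤ δ * 1 := by
              apply mul_le_mul_of_nonneg_left _ hδ.le
              rw [div_le_one (by positivity)]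
              linarith
          _ = δ := mul_one δ

theorem sum_div_mul {R : Type*} [AddCommMonoid R] (F : ℕ → ℕ → R) (N : ℕ) :
    ∑ e ∈ Ioc 0 N, ∑ d ∈ Ioc 0 (N / e), F e (e * d) = ∑ k ∈ Ioc 0 N, ∑ e ∈ k.divisors, F e k := by
  rw [Finset.sum_sigma', Finset.sum_sigma']
  refine Finset.sum_bij' (fun x _ => ⟨x.1 * x.2, x.1⟩) (fun y _ => ⟨y.2, y.1 / y.2⟩) ?_ ?_ ?_ ?_ ?_
  · rintro ⟨e, d⟩ h
    simp only [Finset.mem_sigma, Finset.mem_Ioc, Nat.mem_divisors] at h ⊢
    obtain ⟨⟨h1, h2⟩, h3, h4⟩ := h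
    have h5 : e * d ≤ N := by
      rw [mul_comm]
      exact (Nat.le_div_iff_mul_le h1).mp h4
    exact ⟨⟨Nat.mul_pos h1 h3, h5⟩, dvd_mul_right _ _, (Nat.mul_pos h1 h3).ne'⟩
  · rintro ⟨k, e⟩ h
    simp only [Finset.mem_sigma, Finset.mem_Ioc, Nat.mem_divisors] at h ⊢
    obtain ⟨⟨h1, h2⟩, h3, h4⟩ := h
    have he : 0 < e := Nat.pos_of_dvd_of_pos h3 h1
    refine ⟨⟨he, (Nat.le_of_dvd h1 h3).trans h2⟩, Nat.div_pos (Nat.le_of_dvd h1 h3) he, ?_⟩
    exact Nat.div_le_div_right h2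
  · rintro ⟨e, d⟩ h
    simp only [Finset.mem_sigma, Finset.mem_Ioc] at h
    simp only [Nat.mul_div_cancel_left d h.1.1]
  · rintro ⟨k, e⟩ h
    simp only [Finset.mem_sigma, Finset.mem_Ioc, Nat.mem_divisors] at h
    simp only [Nat.mul_div_cancel' h.2.1]
  · rintro ⟨e, d⟩ h
    rfl

/-- Divisor sums of Liouville's function. -/
def qq : ArithmeticFunction ℤ := ArithmeticFunction.liouville * (ArithmeticFunction.zeta : ArithmeticFunction ℤ)

theorem qq_apply (n : ℕ) (hn : n ≠ 0) : qq n = if IsSquare n then 1 else 0 := by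
  have hfm : qq.IsMultiplicative := ArithmeticFunction.isMultiplicative_liouville.mul
    ArithmeticFunction.isMultiplicative_zeta.natCast
  have hpk : ∀ p k : ℕ, p.Prime → qq (p ^ k) = if Even k then 1 else 0 := by
    intro p k hp
    rw [qq, ArithmeticFunction.coe_mul_zeta_apply, Nat.sum_divisors_prime_pow hp]
    have : ∀ i ∈ range (k + 1), ArithmeticFunction.liouville (p ^ i) = (-1) ^ i := by
      intro i _
      rw [← Pool.Agent.GLI.lam_eq_liouville (pow_ne_zero _ hp.ne_zero)]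
      unfold Pool.Agent.GLI.lam
      rw [ArithmeticFunction.cardFactors_apply_prime_pow hp]
    rw [Finset.sum_congr rfl this, neg_one_geom_sum]
    by_cases hk : Even k
    · rw [if_pos hk, if_neg]
      intro h
      rw [Nat.even_add_one] at h
      exact h hk
    · rw [if_neg hk, if_pos]
      rw [Nat.even_add_one]
      exact hk
  rw [hfm.multiplicative_factorization qq hn]
  by_cases h : ∀ p ∈ n.primeFactors, Even (n.factorization p)
  · rw [if_pos (Pool.Agent.GLI.isSquare_of_even hn h)]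
    unfold Finsupp.prod
    apply Finset.prod_eq_one
    intro p hp
    have hp' : p ∈ n.primeFactors := by simpa using hp
    beta_reduce
    rw [hpk p _ (Nat.prime_of_mem_primeFactors hp'), if_pos (h p hp')]
  · have h' := h
    rw [if_neg]
    · push Not at h
      obtain ⟨p, hp, hpe⟩ := h
      unfold Finsupp.prod
      apply Finset.prod_eq_zero (i := p) (by simpa using hp)
      beta_reduce
      rw [hpk p _ (Nat.prime_of_mem_primeFactors hp), if_neg hpe]
    · rintro ⟨r, rfl⟩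
      apply h'
      intro p _
      have hr : r ≠ 0 := by rintro rfl; simp at hn
      rw [Nat.factorization_mul hr hr]
      exact ⟨r.factorization p, rfl⟩

theorem liouville_eq : ArithmeticFunction.liouville = qq * ArithmeticFunction.moebius := by
  rw [qq, mul_assoc, ArithmeticFunction.coe_zeta_mul_moebius, mul_one]

theorem MM_zero : MM 0 = 0 := by simp [MM]

/-- The Liouville sum in terms of the Moebius sum. -/
theorem LL_eq (N : ℕ) : LL N = ∑ d ∈ Ioc 0 N, MM (N / (d * d)) := by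
  have h1 : LL N = ∑ n ∈ Ioc 0 N, (qq * ArithmeticFunction.moebius) n := by
    rw [← liouville_eq]
    unfold LL
    apply Finset.sum_congr rfl
    intro n hn
    rw [Finset.mem_Ioc] at hn
    exact Pool.Agent.GLI.lam_eq_liouville (by omega)
  rw [h1, ArithmeticFunction.sum_Ioc_mul_eq_sum_sum]
  have h2 : ∑ n ∈ Ioc 0 N, qq n * ∑ m ∈ Ioc 0 (N / n), ArithmeticFunction.moebius m =
      ∑ n ∈ (Ioc 0 N).filter IsSquare, MM (N / n) := by
    rw [Finset.sum_filter]
    apply Finset.sum_congr rfl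
    intro n hn
    rw [Finset.mem_Ioc] at hn
    rw [qq_apply n (by omega)]
    split_ifs
    · rw [one_mul]; rfl
    · rw [zero_mul]
  rw [h2]
  symm
  have h3 : (Ioc 0 N).filter IsSquare = ((Ioc 0 N).filter (fun d => d * d ≤ N)).image (fun d => d * d) := by
    ext n
    simp only [Finset.mem_filter, Finset.mem_Ioc, Finset.mem_image]
    constructor
    · rintro ⟨⟨h1, h2⟩, r, rfl⟩
      have hr : 0 < r := by
        rcases Nat.eq_zero_or_pos r with h | h
        · subst h; simp at h1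
        · exact h
      exact ⟨r, ⟨⟨hr, (Nat.le_mul_self r).trans h2⟩, h2⟩, rfl⟩
    · rintro ⟨d, ⟨⟨h1, h2⟩, h3⟩, rfl⟩
      exact ⟨⟨Nat.mul_pos h1 h1, h3⟩, d, rfl⟩
  rw [h3, Finset.sum_image (fun a _ b _ h => Nat.mul_self_inj.mp h), Finset.sum_filter]
  apply Finset.sum_congr rfl
  intro d hd
  rw [Finset.mem_Ioc] at hd
  split_ifs with h
  · rfl
  · rw [Nat.div_eq_of_lt (by omega), MM_zero]

/-- Inversion. -/
theorem MM_eq (N : ℕ) : MM N = ∑ e ∈ Ioc 0 N, ArithmeticFunction.moebius e * LL (N / (e * e)) := by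
  have h1 : ∀ e ∈ Ioc 0 N, ArithmeticFunction.moebius e * LL (N / (e * e)) =
      ∑ d ∈ Ioc 0 (N / e), ArithmeticFunction.moebius e * MM (N / ((e * d) * (e * d))) := by
    intro e he
    rw [Finset.mem_Ioc] at he
    rw [LL_eq, Finset.mul_sum]
    have hsub : Ioc 0 (N / (e * e)) ⊆ Ioc 0 (N / e) := by
      apply Finset.Ioc_subset_Ioc le_rfl
      apply Nat.div_le_div_left (Nat.le_mul_self e) he.1
    rw [← Finset.sum_subset hsub]
    · apply Finset.sum_congr rfl
      intro d _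
      rw [Nat.div_div_eq_div_mul]
      congr 3
      ring
    · intro d hd hd'
      rw [Finset.mem_Ioc] at hd hd'
      have h2 : N / (e * e) < d := by omega
      have h3 : N < (e * d) * (e * d) := by
        have h4 : N < d * (e * e) := (Nat.div_lt_iff_lt_mul (Nat.mul_pos he.1 he.1)).mp h2
        calc N < d * (e * e) := h4
          _ ≤ d * (e * e) * d := Nat.le_mul_of_pos_right _ hd.1
          _ = (e * d) * (e * d) := by ring
      rw [Nat.div_eq_of_lt h3, MM_zero, mul_zero]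
  rw [Finset.sum_congr rfl h1,
    sum_div_mul (fun e k => ArithmeticFunction.moebius e * MM (N / (k * k))) N]
  rcases Nat.eq_zero_or_pos N with h | h
  · subst h; simp [MM]
  rw [Finset.sum_eq_single_of_mem 1 (by rw [Finset.mem_Ioc]; omega)]
  · simp
  · intro k hk hk1
    rw [← Finset.sum_mul]
    have h2 : ∑ e ∈ k.divisors, ArithmeticFunction.moebius e = 0 := by
      have h3 := ArithmeticFunction.coe_mul_zeta_apply (f := ArithmeticFunction.moebius) (x := k)
      rw [← h3, ArithmeticFunction.moebius_mul_coe_zeta, ArithmeticFunction.one_apply_ne hk1]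
    rw [h2, zero_mul]

theorem abs_LL_le (N : ℕ) : |(LL N : ℝ)| ≤ N := by
  unfold LL
  push_cast
  refine (Finset.abs_sum_le_sum_abs _ _).trans ?_
  simp only [Pool.Agent.GLI.abs_lam]
  simp

theorem abs_MM_le (N : ℕ) : |(MM N : ℝ)| ≤ N := by
  unfold MM
  push_cast
  refine (Finset.abs_sum_le_sum_abs _ _).trans ?_
  calc ∑ n ∈ Ioc 0 N, |((ArithmeticFunction.moebius n : ℤ) : ℝ)| ≤ ∑ n ∈ Ioc 0 N, (1 : ℝ) := by
        apply Finset.sum_le_sum
        intro n _
        have := ArithmeticFunction.abs_moebius_le_one (n := n)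
        exact_mod_cast this
    _ = N := by simp

theorem sum_inv_sq_tail (E N : ℕ) (hE : 1 ≤ E) : ∑ e ∈ Ioc E N, (1 : ℝ) / (e : ℝ) ^ 2 ≤ 1 / E := by
  rcases Nat.lt_or_ge N E with h | h
  · rw [Finset.Ioc_eq_empty (by omega), Finset.sum_empty]
    positivity
  · induction N, h using Nat.le_induction with
    | base => simp
    | succ n hn ih =>
      have h1 : ∀ n : ℕ, E ≤ n → ∑ e ∈ Ioc E n, (1 : ℝ) / (e : ℝ) ^ 2 ≤ 1 / E - 1 / n := by
        intro n hn
        induction n, hn using Nat.le_induction with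
        | base => simp
        | succ n hn ih =>
          rw [Finset.sum_Ioc_succ_top (by omega)]
          have hn0 : (0 : ℝ) < n := by exact_mod_cast (by omega : 0 < n)
          have h2 : (1 : ℝ) / ((n + 1 : ℕ) : ℝ) ^ 2 ≤ 1 / n - 1 / ((n + 1 : ℕ) : ℝ) := by
            push_cast
            rw [div_sub_div _ _ hn0.ne' (by positivity), div_le_div_iff₀ (by positivity) (by positivity)]
            nlinarith
          linarith
      have h2 := h1 (n + 1) (by omega)
      have h3 : (0 : ℝ) ≤ 1 / ((n + 1 : ℕ) : ℝ) := by positivity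
      linarith

theorem mertens_bound (A : ℕ) : ∃ C : ℝ, 0 < C ∧ ∀ N : ℕ, 2 ≤ N →
    |(MM N : ℝ)| ≤ C * N / Real.log N ^ A := by
  obtain ⟨C1, hC1, h1⟩ := Pool.Agent.GLI.pnt A
  obtain ⟨C2, hC2, h2⟩ := log_pow_le A (1 / 4) (by norm_num)
  refine ⟨(C1 * 4 ^ A * 2 + 2 * C2) + Real.log 16 ^ A, by positivity, fun N hN => ?_⟩
  have hN0 : (0 : ℝ) < N := by exact_mod_cast (by omega : 0 < N)
  have hlog : 0 < Real.log N := Real.log_pos (by exact_mod_cast (by omega : 1 < N))
  rcases Nat.lt_or_ge N 16 with hlt | hge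
  · refine (abs_MM_le N).trans ?_
    rw [le_div_iff₀ (by positivity)]
    have h3 : Real.log N ^ A ≤ Real.log 16 ^ A := by
      apply pow_le_pow_left₀ hlog.le
      exact Real.log_le_log hN0 (by exact_mod_cast hlt.le)
    calc (N : ℝ) * Real.log N ^ A ≤ N * Real.log 16 ^ A := mul_le_mul_of_nonneg_left h3 hN0.le
      _ ≤ _ := by
        have : 0 ≤ (C1 * 4 ^ A * 2 + 2 * C2) * N := by positivity
        linarith
  -- large `N`
  set s := Nat.sqrt N with hs
  set E := Nat.sqrt s with hE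
  have hs4 : 4 ≤ s := by rw [hs, Nat.le_sqrt]; omega
  have hE2 : 2 ≤ E := by rw [hE, Nat.le_sqrt]; omega
  have hss : s * s ≤ N := Nat.sqrt_le N
  have hEE : E * E ≤ s := Nat.sqrt_le s
  have hs' : N < (s + 1) * (s + 1) := Nat.lt_succ_sqrt N
  have hE' : s < (E + 1) * (E + 1) := Nat.lt_succ_sqrt s
  have hEN : E ≤ N := by
    calc E ≤ E * E := Nat.le_mul_self E
      _ ≤ s := hEE
      _ ≤ s * s := Nat.le_mul_self s
      _ ≤ N := hss
  have hlogs : Real.log N / 4 ≤ Real.log s := by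
    have h3 : (N : ℝ) ≤ ((s : ℝ) ^ 2) ^ 2 := by
      have : N ≤ (s ^ 2) ^ 2 := by
        have h4 : s + 1 ≤ s ^ 2 := by nlinarith
        calc N ≤ (s + 1) * (s + 1) := hs'.le
          _ ≤ s ^ 2 * s ^ 2 := Nat.mul_le_mul h4 h4
          _ = _ := by ring
      exact_mod_cast this
    have h4 := Real.log_le_log hN0 h3
    rw [Real.log_pow, Real.log_pow] at h4
    push_cast at h4
    linarith
  have hN4 : (N : ℝ) ^ ((1 : ℝ) / 4) ≤ 2 * E := by
    have h3 : N ≤ (2 * E) ^ 4 := by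
      have h4 : s + 1 ≤ (E + 1) * (E + 1) := hE'
      have h5 : (E + 1) * (E + 1) ≤ (2 * E) * (2 * E) := Nat.mul_self_le_mul_self (by omega)
      calc N ≤ (s + 1) * (s + 1) := hs'.le
        _ ≤ ((2 * E) * (2 * E)) * ((2 * E) * (2 * E)) := Nat.mul_le_mul (h4.trans h5) (h4.trans h5)
        _ = (2 * E) ^ 4 := by ring
    have h4 : (N : ℝ) ≤ (2 * (E : ℝ)) ^ 4 := by exact_mod_cast h3
    calc (N : ℝ) ^ ((1 : ℝ) / 4) ≤ ((2 * (E : ℝ)) ^ 4) ^ ((1 : ℝ) / 4) :=
          Real.rpow_le_rpow hN0.le h4 (by norm_num)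
      _ = 2 * E := by
          rw [← Real.rpow_natCast, ← Real.rpow_mul (by positivity)]
          norm_num
  have hE0 : (0 : ℝ) < E := by exact_mod_cast (by omega : 0 < E)
  have hdiv : ∀ e : ℕ, 0 < e → ((N / (e * e) : ℕ) : ℝ) ≤ N * (1 / (e : ℝ) ^ 2) := by
    intro e he
    have h3 : ((N / (e * e) : ℕ) : ℝ) ≤ (N : ℝ) / ((e * e : ℕ) : ℝ) := Nat.cast_div_le
    refine h3.trans (le_of_eq ?_)
    push_cast
    field_simp
  have hsplit : |(MM N : ℝ)| ≤ ∑ e ∈ Ioc 0 E, |(LL (N / (e * e)) : ℝ)| + ∑ e ∈ Ioc E N, |(LL (N / (e * e)) : ℝ)| := by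
    rw [MM_eq]
    push_cast
    refine (Finset.abs_sum_le_sum_abs _ _).trans ?_
    rw [← Finset.sum_Ioc_consecutive _ (Nat.zero_le E) hEN]
    apply add_le_add
    · apply Finset.sum_le_sum
      intro e _
      rw [abs_mul]
      have h3 : |((ArithmeticFunction.moebius e : ℤ) : ℝ)| ≤ 1 := by
        have := ArithmeticFunction.abs_moebius_le_one (n := e)
        exact_mod_cast this
      calc _ ≤ 1 * |(LL (N / (e * e)) : ℝ)| := mul_le_mul_of_nonneg_right h3 (abs_nonneg _)
        _ = _ := one_mul _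
    · apply Finset.sum_le_sum
      intro e _
      rw [abs_mul]
      have h3 : |((ArithmeticFunction.moebius e : ℤ) : ℝ)| ≤ 1 := by
        have := ArithmeticFunction.abs_moebius_le_one (n := e)
        exact_mod_cast this
      calc _ ≤ 1 * |(LL (N / (e * e)) : ℝ)| := mul_le_mul_of_nonneg_right h3 (abs_nonneg _)
        _ = _ := one_mul _
  have hA : ∑ e ∈ Ioc 0 E, |(LL (N / (e * e)) : ℝ)| ≤ C1 * 4 ^ A * 2 * (N / Real.log N ^ A) := by
    have h3 : ∀ e ∈ Ioc 0 E, |(LL (N / (e * e)) : ℝ)| ≤ C1 * 4 ^ A * (N / Real.log N ^ A) * (1 / (e : ℝ) ^ 2) := by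
      intro e he
      rw [Finset.mem_Ioc] at he
      have hee : e * e ≤ s := (Nat.mul_self_le_mul_self he.2).trans hEE
      have hy : s ≤ N / (e * e) := by
        rw [Nat.le_div_iff_mul_le (Nat.mul_pos he.1 he.1)]
        exact (Nat.mul_le_mul_left s hee).trans hss
      have h4 := h1 (N / (e * e)) (by omega)
      have h5 : (LL (N / (e * e)) : ℝ) = ∑ n ∈ Icc 1 (N / (e * e)), (Pool.Agent.GLI.lam n : ℝ) := by
        unfold LL
        push_cast
        rw [Pool.Agent.GLI.Icc_one_eq]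
      rw [h5]
      refine h4.trans ?_
      have h6 : Real.log N / 4 ≤ Real.log ((N / (e * e) : ℕ) : ℝ) :=
        hlogs.trans (Real.log_le_log (by exact_mod_cast (by omega : 0 < s)) (by exact_mod_cast hy))
      calc C1 * ((N / (e * e) : ℕ) : ℝ) / Real.log ((N / (e * e) : ℕ) : ℝ) ^ A
          ≤ C1 * (N * (1 / (e : ℝ) ^ 2)) / (Real.log N / 4) ^ A := by
            apply div_le_div₀ (by positivity) _ (by positivity)
            · exact pow_le_pow_left₀ (by positivity) h6 A
            · exact mul_le_mul_of_nonneg_left (hdiv e he.1) hC1.le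
        _ = _ := by
            rw [div_pow]
            field_simp
    refine (Finset.sum_le_sum h3).trans ?_
    rw [← Finset.mul_sum]
    have h4 : ∑ e ∈ Ioc 0 E, (1 : ℝ) / (e : ℝ) ^ 2 ≤ 2 := by
      rw [← Finset.sum_Ioc_consecutive _ (Nat.zero_le 1) (by omega : 1 ≤ E)]
      have h5 := sum_inv_sq_tail 1 E le_rfl
      have h6 : ∑ e ∈ Ioc (0 : ℕ) 1, (1 : ℝ) / ((e : ℕ) : ℝ) ^ 2 = 1 := by simp
      rw [h6]
      norm_num at h5 ⊢
      linarith
    calc C1 * 4 ^ A * (N / Real.log N ^ A) * ∑ e ∈ Ioc 0 E, (1 : ℝ) / (e : ℝ) ^ 2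
        ≤ C1 * 4 ^ A * (N / Real.log N ^ A) * 2 := mul_le_mul_of_nonneg_left h4 (by positivity)
      _ = _ := by ring
  have hB : ∑ e ∈ Ioc E N, |(LL (N / (e * e)) : ℝ)| ≤ 2 * C2 * (N / Real.log N ^ A) := by
    calc ∑ e ∈ Ioc E N, |(LL (N / (e * e)) : ℝ)| ≤ ∑ e ∈ Ioc E N, (N : ℝ) * (1 / ((e : ℕ) : ℝ) ^ 2) := by
          apply Finset.sum_le_sum
          intro e he
          rw [Finset.mem_Ioc] at he
          exact (abs_LL_le _).trans (hdiv e (by omega))
      _ = N * ∑ e ∈ Ioc E N, (1 : ℝ) / ((e : ℕ) : ℝ) ^ 2 := by rw [Finset.mul_sum]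
      _ ≤ N * (1 / E) := mul_le_mul_of_nonneg_left (sum_inv_sq_tail E N (by omega)) hN0.le
      _ ≤ 2 * C2 * (N / Real.log N ^ A) := by
          have h3 := h2 N (by exact_mod_cast (by omega : 1 ≤ N))
          rw [mul_one_div, ← mul_div_assoc, div_le_div_iff₀ hE0 (by positivity)]
          have h4 : Real.log N ^ A ≤ 2 * C2 * E := by
            calc Real.log N ^ A ≤ C2 * (N : ℝ) ^ ((1 : ℝ) / 4) := h3
              _ ≤ C2 * (2 * E) := mul_le_mul_of_nonneg_left hN4 (by linarith)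
              _ = _ := by ring
          calc (N : ℝ) * Real.log N ^ A ≤ N * (2 * C2 * E) := mul_le_mul_of_nonneg_left h4 hN0.le
            _ = _ := by ring
  have h5 : 0 ≤ Real.log 16 ^ A * N / Real.log N ^ A := by
    have : 0 < Real.log 16 := Real.log_pos (by norm_num)
    positivity
  calc |(MM N : ℝ)| ≤ C1 * 4 ^ A * 2 * (N / Real.log N ^ A) + 2 * C2 * (N / Real.log N ^ A) :=
        hsplit.trans (add_le_add hA hB)
    _ ≤ C1 * 4 ^ A * 2 * (N / Real.log N ^ A) + 2 * C2 * (N / Real.log N ^ A) +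
        Real.log 16 ^ A * N / Real.log N ^ A := by linarith
    _ = _ := by ring

end Pool.Agent.H84.Pnt
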