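import Pool.Agent.H84.Pnt.Dir

/-!
# The prime number theorem for `ψ`, saving any power of the logarithm
-/

set_option autoImplicit false

open Finset ArithmeticFunction

namespace Pool.Agent.H84.Pnt

noncomputable section

/-- `log - τ + 2γ`. -/
def ff : ArithmeticFunction ℝ := ArithmeticFunction.log - ((sigma 0 : ArithmeticFunction ℕ) : ArithmeticFunction ℝ) +
  (2 * Real.eulerMascheroniConstant) • ((zeta : ArithmeticFunction ℕ) : ArithmeticFunction ℝ)

theorem ff_apply {n : ℕ} (hn : n ≠ 0) :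
    ff n = Real.log n - ((sigma 0 n : ℕ) : ℝ) + 2 * Real.eulerMascheroniConstant := by
  unfold ff
  simp [hn, sub_eq_add_neg]

theorem sigma_eq : ((sigma 0 : ArithmeticFunction ℕ) : ArithmeticFunction ℝ) =
    ((zeta : ArithmeticFunction ℕ) : ArithmeticFunction ℝ) * ((zeta : ArithmeticFunction ℕ) : ArithmeticFunction ℝ) := by
  rw [← zeta_mul_pow_eq_sigma, pow_zero_eq_zeta, natCoe_mul]

theorem ff_mul_moebius : ff * ((moebius : ArithmeticFunction ℤ) : ArithmeticFunction ℝ) =
    vonMangoldt - ((zeta : ArithmeticFunction ℕ) : ArithmeticFunction ℝ) +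
      (2 * Real.eulerMascheroniConstant) • (1 : ArithmeticFunction ℝ) := by
  unfold ff
  rw [add_mul, sub_mul, smul_mul_assoc, log_mul_moebius_eq_vonMangoldt, sigma_eq, mul_assoc,
    coe_zeta_mul_coe_moebius, mul_one]

theorem abs_ff_le {n : ℕ} (hn : 0 < n) : |ff n| ≤ 2 * n := by
  rw [ff_apply hn.ne', abs_le]
  have h1 := Real.eulerMascheroniConstant_lt_two_thirds
  have h2 := Real.one_half_lt_eulerMascheroniConstant
  have h3 : (1 : ℝ) ≤ n := by exact_mod_cast hn
  have h4 : 0 ≤ Real.log n := Real.log_nonneg h3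
  have h5 := Real.log_le_sub_one_of_pos (show (0 : ℝ) < n by linarith)
  have h6 : ((sigma 0 n : ℕ) : ℝ) ≤ n := by
    rw [sigma_zero_apply]
    exact_mod_cast Nat.card_divisors_le_self n
  have h7 : (0 : ℝ) ≤ ((sigma 0 n : ℕ) : ℝ) := by positivity
  constructor <;> linarith

/-- The summatory function of `ff`. -/
def FF (N : ℕ) : ℝ := ∑ n ∈ Ioc 0 N, ff n

theorem abs_FF_le (N : ℕ) : |FF N| ≤ 19 * Real.sqrt N := by
  have h := sum_f_bound N
  have e : FF N = ∑ n ∈ Ioc 0 N, (Real.log n - ((sigma 0 n : ℕ) : ℝ) + 2 * Real.eulerMascheroniConstant) := by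
    unfold FF
    apply Finset.sum_congr rfl
    intro n hn
    rw [Finset.mem_Ioc] at hn
    exact ff_apply (by omega)
  rw [e]
  exact h

theorem psi_nat (N : ℕ) : Chebyshev.psi N = ∑ n ∈ Ioc 0 N, vonMangoldt n := by
  unfold Chebyshev.psi
  rw [Nat.floor_natCast]

theorem psi_identity (N : ℕ) (hN : 1 ≤ N) : Chebyshev.psi N - N + 2 * Real.eulerMascheroniConstant =
    ∑ b ∈ Ioc 0 N, ff b * (MM (N / b) : ℝ) := by
  have h1 := sum_Ioc_mul_eq_sum_sum ff ((moebius : ArithmeticFunction ℤ) : ArithmeticFunction ℝ) N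
  have h2 : ∀ b ∈ Ioc 0 N, ff b * ∑ m ∈ Ioc 0 (N / b), ((moebius : ArithmeticFunction ℤ) : ArithmeticFunction ℝ) m =
      ff b * (MM (N / b) : ℝ) := by
    intro b _
    unfold MM
    push_cast
    rfl
  rw [Finset.sum_congr rfl h2] at h1
  rw [← h1, ff_mul_moebius, psi_nat]
  have h3 : ∀ n ∈ Ioc 0 N, (vonMangoldt - ((zeta : ArithmeticFunction ℕ) : ArithmeticFunction ℝ) +
      (2 * Real.eulerMascheroniConstant) • (1 : ArithmeticFunction ℝ)) n =
      vonMangoldt n - 1 + 2 * Real.eulerMascheroniConstant * (if n = 1 then 1 else 0) := by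
    intro n hn
    rw [Finset.mem_Ioc] at hn
    have hn0 : n ≠ 0 := by omega
    simp [hn0, one_apply, sub_eq_add_neg]
  rw [Finset.sum_congr rfl h3, Finset.sum_add_distrib, Finset.sum_sub_distrib, ← Finset.mul_sum,
    Finset.sum_ite_eq' (Ioc 0 N) 1]
  rw [if_pos (by rw [Finset.mem_Ioc]; omega)]
  simp

theorem tail_swap (N B : ℕ) (hB : 1 ≤ B) (_hBN : B ≤ N) :
    ∑ b ∈ Ioc B N, ff b * (MM (N / b) : ℝ) =
      ∑ a ∈ Ioc 0 (N / B), ((moebius a : ℤ) : ℝ) * (FF (N / a) - FF B) := by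
  have h1 : ∀ b ∈ Ioc B N, ff b * (MM (N / b) : ℝ) =
      ∑ a ∈ Ioc 0 (N / B), if a * b ≤ N then ff b * ((moebius a : ℤ) : ℝ) else 0 := by
    intro b hb
    rw [Finset.mem_Ioc] at hb
    have hb0 : 0 < b := by omega
    rw [← Finset.sum_filter]
    have h2 : (Ioc 0 (N / B)).filter (fun a => a * b ≤ N) = Ioc 0 (N / b) := by
      ext a
      rw [Finset.mem_filter, Finset.mem_Ioc, Finset.mem_Ioc, Nat.le_div_iff_mul_le hb0]
      constructor
      · rintro ⟨⟨h3, h4⟩, h5⟩
        exact ⟨h3, h5⟩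
      · rintro ⟨h3, h4⟩
        refine ⟨⟨h3, ?_⟩, h4⟩
        rw [Nat.le_div_iff_mul_le (by omega)]
        exact (Nat.mul_le_mul_left a hb.1.le).trans h4
    rw [h2, ← Finset.mul_sum]
    unfold MM
    push_cast
    rfl
  rw [Finset.sum_congr rfl h1, Finset.sum_comm]
  apply Finset.sum_congr rfl
  intro a ha
  rw [Finset.mem_Ioc] at ha
  have hBa : B ≤ N / a := by
    rw [Nat.le_div_iff_mul_le ha.1, mul_comm]
    exact (Nat.le_div_iff_mul_le (by omega)).mp ha.2
  rw [← Finset.sum_filter]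
  have h2 : (Ioc B N).filter (fun b => a * b ≤ N) = Ioc B (N / a) := by
    ext b
    rw [Finset.mem_filter, Finset.mem_Ioc, Finset.mem_Ioc, Nat.le_div_iff_mul_le ha.1, mul_comm a b]
    constructor
    · rintro ⟨⟨h3, h4⟩, h5⟩
      exact ⟨h3, h5⟩
    · rintro ⟨h3, h4⟩
      exact ⟨⟨h3, (Nat.le_mul_of_pos_right b ha.1).trans h4⟩, h4⟩
  rw [h2, ← Finset.sum_mul]
  have h3 : FF (N / a) = FF B + ∑ b ∈ Ioc B (N / a), ff b := by
    unfold FF
    rw [Finset.sum_Ioc_consecutive _ (Nat.zero_le B) hBa]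
  rw [h3]
  ring

theorem sum_inv_sqrt (m : ℕ) : ∑ a ∈ Ioc 0 m, 1 / Real.sqrt (a : ℝ) ≤ 2 * Real.sqrt m := by
  induction m with
  | zero => simp
  | succ m ih =>
    rw [Finset.sum_Ioc_succ_top (by omega)]
    have h1 : 1 / Real.sqrt ((m + 1 : ℕ) : ℝ) ≤ 2 * (Real.sqrt ((m + 1 : ℕ) : ℝ) - Real.sqrt m) := by
      have h2 : (0 : ℝ) ≤ m := by positivity
      have h3 : 0 < Real.sqrt ((m + 1 : ℕ) : ℝ) := Real.sqrt_pos.mpr (by positivity)
      have h4 : Real.sqrt ((m + 1 : ℕ) : ℝ) * Real.sqrt ((m + 1 : ℕ) : ℝ) = m + 1 := by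
        rw [Real.mul_self_sqrt (by positivity)]; push_cast; ring
      have h5 : Real.sqrt (m : ℝ) * Real.sqrt (m : ℝ) = m := Real.mul_self_sqrt h2
      have h6 : 0 ≤ Real.sqrt (m : ℝ) := Real.sqrt_nonneg _
      rw [div_le_iff₀ h3]
      nlinarith [sq_nonneg (Real.sqrt ((m + 1 : ℕ) : ℝ) - Real.sqrt (m : ℝ))]
    linarith

theorem psi_finite (A : ℕ) : ∃ C : ℝ, 0 < C ∧ ∀ N B : ℕ, 16 ≤ N → 1 ≤ B → B ≤ Nat.sqrt N →
    |Chebyshev.psi N - N + 2 * Real.eulerMascheroniConstant| ≤
      C * (N * (B / Real.log N ^ A)) + 76 * (N / Real.sqrt B) := by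
  obtain ⟨C, hC, h⟩ := mertens_bound A
  refine ⟨2 * C * 4 ^ A, by positivity, fun N B hN hB hBs => ?_⟩
  set s := Nat.sqrt N with hs
  have hN0 : (0 : ℝ) < N := by exact_mod_cast (by omega : 0 < N)
  have hlog : 0 < Real.log N := Real.log_pos (by exact_mod_cast (by omega : 1 < N))
  have hs4 : 4 ≤ s := by rw [hs, Nat.le_sqrt]; omega
  have hss : s * s ≤ N := Nat.sqrt_le N
  have hs' : N < (s + 1) * (s + 1) := Nat.lt_succ_sqrt N
  have hBN : B ≤ N := hBs.trans ((Nat.le_mul_self s).trans hss)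
  have hB0 : (0 : ℝ) < B := by exact_mod_cast hB
  have hlogs : Real.log N / 4 ≤ Real.log s := by
    have h3 : (N : ℝ) ≤ ((s : ℝ) ^ 2) ^ 2 := by
      have : N ≤ (s ^ 2) ^ 2 := by
        have h4 : s + 1 ≤ s ^ 2 := by nlinarith
        calc N ≤ (s + 1) * (s + 1) := hs'.le
          _ ≤ s ^ 2 * s ^ 2 := Nat.mul_le_mul h4 h4
          _ = _ := by ring
      exact_mod_cast this
    have h4 := Real.log_le_log hN0 h3
    rw [Real.log_pow, Real.log_pow] at h4
    push_cast at h4
    linarith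
  rw [psi_identity N (by omega), ← Finset.sum_Ioc_consecutive _ (Nat.zero_le B) hBN]
  refine (abs_add_le _ _).trans (add_le_add ?_ ?_)
  · refine (Finset.abs_sum_le_sum_abs _ _).trans ?_
    have h1 : ∀ b ∈ Ioc 0 B, |ff b * (MM (N / b) : ℝ)| ≤ 2 * C * 4 ^ A * (N / Real.log N ^ A) := by
      intro b hb
      rw [Finset.mem_Ioc] at hb
      have hb0 : (0 : ℝ) < b := by exact_mod_cast hb.1
      have hsb : s ≤ N / b := by
        rw [Nat.le_div_iff_mul_le hb.1]
        exact (Nat.mul_le_mul_left s (hb.2.trans hBs)).trans hss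
      have h2 := h (N / b) (by omega)
      have h3 : Real.log N / 4 ≤ Real.log ((N / b : ℕ) : ℝ) :=
        hlogs.trans (Real.log_le_log (by exact_mod_cast (by omega : 0 < s)) (by exact_mod_cast hsb))
      have h4 : ((N / b : ℕ) : ℝ) ≤ (N : ℝ) / b := Nat.cast_div_le
      have h5 : |(MM (N / b) : ℝ)| ≤ C * (N / b) / (Real.log N / 4) ^ A := by
        refine h2.trans ?_
        apply div_le_div₀ (by positivity) _ (by positivity)
        · exact pow_le_pow_left₀ (by positivity) h3 A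
        · exact mul_le_mul_of_nonneg_left h4 hC.le
      rw [abs_mul]
      calc |ff b| * |(MM (N / b) : ℝ)| ≤ (2 * b) * (C * (N / b) / (Real.log N / 4) ^ A) :=
            mul_le_mul (abs_ff_le hb.1) h5 (abs_nonneg _) (by positivity)
        _ = _ := by
            rw [div_pow]
            field_simp
    refine (Finset.sum_le_sum h1).trans ?_
    rw [Finset.sum_const, Nat.card_Ioc, nsmul_eq_mul, Nat.sub_zero]
    apply le_of_eq
    ring
  · rw [tail_swap N B hB hBN]
    refine (Finset.abs_sum_le_sum_abs _ _).trans ?_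
    have h1 : ∀ a ∈ Ioc 0 (N / B), |((moebius a : ℤ) : ℝ) * (FF (N / a) - FF B)| ≤
        38 * Real.sqrt N * (1 / Real.sqrt (a : ℝ)) := by
      intro a ha
      rw [Finset.mem_Ioc] at ha
      have ha0 : (0 : ℝ) < a := by exact_mod_cast ha.1
      have h3 : |((moebius a : ℤ) : ℝ)| ≤ 1 := by
        have := abs_moebius_le_one (n := a)
        exact_mod_cast this
      have hBa : B ≤ N / a := by
        rw [Nat.le_div_iff_mul_le ha.1, mul_comm]
        exact (Nat.le_div_iff_mul_le (by omega)).mp ha.2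
      have h4 : Real.sqrt ((N / a : ℕ) : ℝ) ≤ Real.sqrt N * (1 / Real.sqrt (a : ℝ)) := by
        have h5 : ((N / a : ℕ) : ℝ) ≤ (N : ℝ) / a := Nat.cast_div_le
        refine (Real.sqrt_le_sqrt h5).trans (le_of_eq ?_)
        rw [Real.sqrt_div hN0.le]
        ring
      have h5 : Real.sqrt (B : ℝ) ≤ Real.sqrt N * (1 / Real.sqrt (a : ℝ)) :=
        (Real.sqrt_le_sqrt (by exact_mod_cast hBa)).trans h4
      have h6 := abs_FF_le (N / a)
      have h7 := abs_FF_le B
      have h8 : |FF (N / a) - FF B| ≤ 38 * Real.sqrt N * (1 / Real.sqrt (a : ℝ)) := by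
        refine (abs_sub _ _).trans ?_
        linarith
      rw [abs_mul]
      calc |((moebius a : ℤ) : ℝ)| * |FF (N / a) - FF B| ≤ 1 * |FF (N / a) - FF B| :=
            mul_le_mul_of_nonneg_right h3 (abs_nonneg _)
        _ ≤ _ := by rw [one_mul]; exact h8
    refine (Finset.sum_le_sum h1).trans ?_
    rw [← Finset.mul_sum]
    have h2 := sum_inv_sqrt (N / B)
    have h3 : Real.sqrt ((N / B : ℕ) : ℝ) ≤ Real.sqrt N / Real.sqrt B := by
      have h5 : ((N / B : ℕ) : ℝ) ≤ (N : ℝ) / B := Nat.cast_div_le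
      refine (Real.sqrt_le_sqrt h5).trans (le_of_eq ?_)
      rw [Real.sqrt_div hN0.le]
    calc 38 * Real.sqrt N * ∑ a ∈ Ioc 0 (N / B), 1 / Real.sqrt (a : ℝ)
        ≤ 38 * Real.sqrt N * (2 * (Real.sqrt N / Real.sqrt B)) := by
          apply mul_le_mul_of_nonneg_left _ (by positivity)
          linarith
      _ = 76 * (Real.sqrt N * Real.sqrt N / Real.sqrt B) := by ring
      _ = _ := by rw [Real.mul_self_sqrt hN0.le]

/-- The prime number theorem for `ψ` at integers. -/
theorem psi_nat_bound (K : ℕ) : ∃ C : ℝ, 0 < C ∧ ∀ N : ℕ, 2 ≤ N →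
    |Chebyshev.psi N - N| ≤ C * (N / Real.log N ^ K) := by
  obtain ⟨C1, hC1, h1⟩ := psi_finite (3 * K)
  obtain ⟨C2, hC2, h2⟩ := log_pow_le (2 * K) (1 / 4) (by norm_num)
  obtain ⟨C3, hC3, h3⟩ := log_pow_le K 1 (by norm_num)
  set N0 : ℝ := max 16 (16 * C2 ^ 4) with hN0
  have hN016 : 16 ≤ N0 := le_max_left _ _
  refine ⟨C1 + 152 + 2 * C3 + 5 * Real.log N0 ^ K, by
    have : 0 ≤ Real.log N0 := Real.log_nonneg (by linarith)
    positivity, fun N hN => ?_⟩
  have hNpos : (0 : ℝ) < N := by exact_mod_cast (by omega : 0 < N)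
  have hN1 : (1 : ℝ) < N := by exact_mod_cast (by omega : 1 < N)
  have hlog : 0 < Real.log N := Real.log_pos hN1
  have hlogK : 0 < Real.log N ^ K := by positivity
  set Y := (N : ℝ) / Real.log N ^ K with hY
  have hY0 : 0 < Y := by positivity
  have hl0 : 0 ≤ Real.log N0 := Real.log_nonneg (by linarith)
  rcases lt_or_ge (N : ℝ) N0 with hlt | hge
  · have h4 := Chebyshev.psi_le_const_mul_self hNpos.le
    have h5 := Chebyshev.psi_nonneg (N : ℝ)
    have h6 : |Chebyshev.psi N - N| ≤ 5 * N := by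
      have h7 : Real.log 4 ≤ 3 / 2 := by
        rw [show (4 : ℝ) = 2 ^ 2 by norm_num, Real.log_pow]
        have := Real.log_two_lt_d9
        push_cast
        linarith
      rw [abs_le]
      constructor
      · nlinarith
      · nlinarith
    have h7 : (N : ℝ) ≤ Real.log N0 ^ K * Y := by
      rw [hY, mul_div_assoc', le_div_iff₀ hlogK, mul_comm]
      apply mul_le_mul_of_nonneg_right _ hNpos.le
      exact pow_le_pow_left₀ hlog.le (Real.log_le_log hNpos hlt.le) K
    calc |Chebyshev.psi N - N| ≤ 5 * N := h6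
      _ ≤ 5 * (Real.log N0 ^ K * Y) := by linarith
      _ ≤ _ := by nlinarith
  · have hN16 : 16 ≤ N := by exact_mod_cast hN016.trans hge
    have hl1 : 1 ≤ Real.log N := by
      rw [← Real.log_exp 1]
      apply Real.log_le_log (Real.exp_pos _)
      have h4 := Real.exp_one_lt_d9
      have h5 : (16 : ℝ) ≤ N := by exact_mod_cast hN16
      linarith
    set B := ⌊Real.log N ^ (2 * K)⌋₊ with hB
    have hB1' : (1 : ℝ) ≤ Real.log N ^ (2 * K) := one_le_pow₀ hl1
    have hB1 : 1 ≤ B := Nat.le_floor (by exact_mod_cast hB1')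
    have hBle : (B : ℝ) ≤ Real.log N ^ (2 * K) := Nat.floor_le (by positivity)
    have hBge : Real.log N ^ (2 * K) / 2 ≤ B := by
      have h4 := Nat.lt_floor_add_one (Real.log N ^ (2 * K))
      have h5 : (1 : ℝ) ≤ B := by exact_mod_cast hB1
      linarith
    have hBs : B ≤ Nat.sqrt N := by
      rw [Nat.le_sqrt]
      have h4 := h2 N hN1.le
      have h5 : C2 * (N : ℝ) ^ ((1 : ℝ) / 4) ≤ (N : ℝ) ^ ((1 : ℝ) / 2) := by
        have h6 : C2 ≤ (N : ℝ) ^ ((1 : ℝ) / 4) := by
          have h7 : C2 ^ 4 ≤ N := by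
            have : 16 * C2 ^ 4 ≤ N := (le_max_right _ _).trans hge
            have : 0 ≤ C2 ^ 4 := by positivity
            linarith
          calc C2 = (C2 ^ 4) ^ ((1 : ℝ) / 4) := by
                rw [← Real.rpow_natCast, ← Real.rpow_mul (by linarith)]
                norm_num
            _ ≤ _ := Real.rpow_le_rpow (by positivity) h7 (by norm_num)
        calc C2 * (N : ℝ) ^ ((1 : ℝ) / 4) ≤ (N : ℝ) ^ ((1 : ℝ) / 4) * (N : ℝ) ^ ((1 : ℝ) / 4) :=
              mul_le_mul_of_nonneg_right h6 (by positivity)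
          _ = _ := by rw [← Real.rpow_add hNpos]; norm_num
      have h6 : (B : ℝ) ≤ (N : ℝ) ^ ((1 : ℝ) / 2) := hBle.trans (h4.trans h5)
      have h7 : (B : ℝ) * B ≤ N := by
        calc (B : ℝ) * B ≤ (N : ℝ) ^ ((1 : ℝ) / 2) * (N : ℝ) ^ ((1 : ℝ) / 2) :=
              mul_le_mul h6 h6 (by positivity) (by positivity)
          _ = N := by rw [← Real.rpow_add hNpos]; norm_num
      exact_mod_cast h7
    have h4 := h1 N B hN16 hB1 hBs
    have h5 : (N : ℝ) * (B / Real.log N ^ (3 * K)) ≤ Y := by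
      rw [hY, mul_div_assoc', div_le_div_iff₀ (by positivity) hlogK]
      calc (N : ℝ) * B * Real.log N ^ K ≤ N * Real.log N ^ (2 * K) * Real.log N ^ K := by
            apply mul_le_mul_of_nonneg_right _ hlogK.le
            exact mul_le_mul_of_nonneg_left hBle hNpos.le
        _ = N * Real.log N ^ (3 * K) := by
            rw [mul_assoc, ← pow_add]
            congr 2
            ring
    have h6 : (N : ℝ) / Real.sqrt B ≤ 2 * Y := by
      rw [hY, mul_div_assoc', div_le_div_iff₀ (Real.sqrt_pos.mpr (by exact_mod_cast hB1)) hlogK]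
      have h7 : Real.log N ^ K ≤ 2 * Real.sqrt B := by
        have h8 : Real.sqrt (Real.log N ^ (2 * K) / 4) ≤ Real.sqrt B := by
          apply Real.sqrt_le_sqrt
          linarith
        have h9 : Real.sqrt (Real.log N ^ (2 * K) / 4) = Real.log N ^ K / 2 := by
          have e : Real.log N ^ (2 * K) / 4 = (Real.log N ^ K / 2) ^ 2 := by
            rw [div_pow, ← pow_mul, mul_comm 2 K]
            norm_num
          rw [e, Real.sqrt_sq (by positivity)]
        rw [h9] at h8
        linarith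
      calc (N : ℝ) * Real.log N ^ K ≤ N * (2 * Real.sqrt B) := mul_le_mul_of_nonneg_left h7 hNpos.le
        _ = _ := by ring
    have h7 : 1 ≤ C3 * Y := by
      rw [hY, mul_div_assoc', le_div_iff₀ hlogK, one_mul]
      have := h3 N hN1.le
      rwa [Real.rpow_one] at this
    have h8 := Real.eulerMascheroniConstant_lt_two_thirds
    have h9 := Real.one_half_lt_eulerMascheroniConstant
    have h10 : |Chebyshev.psi N - N| ≤ |Chebyshev.psi N - N + 2 * Real.eulerMascheroniConstant| + 2 := by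
      have h11 := abs_sub (Chebyshev.psi N - N + 2 * Real.eulerMascheroniConstant) (2 * Real.eulerMascheroniConstant)
      rw [add_sub_cancel_right, abs_of_pos (show 0 < 2 * Real.eulerMascheroniConstant by linarith)] at h11
      linarith
    have h11 : C1 * (N * (B / Real.log N ^ (3 * K))) ≤ C1 * Y := mul_le_mul_of_nonneg_left h5 hC1.le
    have h12 : 0 ≤ 5 * Real.log N0 ^ K * Y := by positivity
    nlinarith

/-- **The prime number theorem** for `ψ`, saving any power of the logarithm. -/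
theorem psi_bound (K : ℕ) : ∃ C : ℝ, 0 < C ∧ ∀ x : ℝ, 2 ≤ x →
    |Chebyshev.psi x - x| ≤ C * (x / Real.log x ^ K) := by
  obtain ⟨C1, hC1, h1⟩ := psi_nat_bound K
  obtain ⟨C3, hC3, h3⟩ := log_pow_le K 1 (by norm_num)
  refine ⟨C1 * 2 ^ K + C3, by positivity, fun x hx => ?_⟩
  have hx0 : 0 < x := by linarith
  have hlog : 0 < Real.log x := Real.log_pos (by linarith)
  set N := ⌊x⌋₊ with hN
  have hN2 : 2 ≤ N := Nat.le_floor (by exact_mod_cast hx)
  have hNx : (N : ℝ) ≤ x := Nat.floor_le hx0.le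
  have hxN : x < N + 1 := Nat.lt_floor_add_one x
  have hN2' : (2 : ℝ) ≤ N := by exact_mod_cast hN2
  have hlogN : Real.log x / 2 ≤ Real.log N := by
    have h4 : x ≤ (N : ℝ) ^ 2 := by nlinarith
    have h5 := Real.log_le_log hx0 h4
    rw [Real.log_pow] at h5
    push_cast at h5
    linarith
  have h4 := h1 N hN2
  rw [Chebyshev.psi_eq_psi_coe_floor]
  have h5 : |Chebyshev.psi N - x| ≤ |Chebyshev.psi N - N| + 1 := by
    have h6 := abs_sub_le (Chebyshev.psi (N : ℝ)) N x
    have h7 : |(N : ℝ) - x| ≤ 1 := by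
      rw [abs_le]
      constructor <;> linarith
    linarith
  have h6 : C1 * (N / Real.log N ^ K) ≤ C1 * 2 ^ K * (x / Real.log x ^ K) := by
    calc C1 * (N / Real.log N ^ K) ≤ C1 * (x / (Real.log x / 2) ^ K) := by
          apply mul_le_mul_of_nonneg_left _ hC1.le
          apply div_le_div₀ hx0.le hNx (by positivity)
          exact pow_le_pow_left₀ (by positivity) hlogN K
      _ = _ := by rw [div_pow]; field_simp
  have h7 : 1 ≤ C3 * (x / Real.log x ^ K) := by
    rw [mul_div_assoc', le_div_iff₀ (by positivity), one_mul]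
    have := h3 x (by linarith)
    rwa [Real.rpow_one] at this
  linarith

/-- **The prime number theorem** for `θ`, saving any power of the logarithm. -/
theorem theta_bound (K : ℕ) : ∃ C : ℝ, 0 < C ∧ ∀ x : ℝ, 2 ≤ x →
    |Chebyshev.theta x - x| ≤ C * (x / Real.log x ^ K) := by
  obtain ⟨C1, hC1, h1⟩ := psi_bound K
  obtain ⟨C3, hC3, h3⟩ := log_pow_le (K + 1) (1 / 2) (by norm_num)
  refine ⟨C1 + 2 * C3, by positivity, fun x hx => ?_⟩
  have hx0 : 0 < x := by linarith
  have hlog : 0 < Real.log x := Real.log_pos (by linarith)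
  have h4 := h1 x hx
  have h5 := Chebyshev.psi_sub_theta_le (show 1 ≤ x by linarith)
  have h6 := Chebyshev.theta_le_psi x
  have h7 : √x * Real.log x ≤ C3 * (x / Real.log x ^ K) := by
    rw [mul_div_assoc', le_div_iff₀ (by positivity)]
    have h8 := h3 x (by linarith)
    rw [← Real.sqrt_eq_rpow] at h8
    calc √x * Real.log x * Real.log x ^ K = √x * Real.log x ^ (K + 1) := by ring
      _ ≤ √x * (C3 * √x) := mul_le_mul_of_nonneg_left h8 (Real.sqrt_nonneg x)
      _ = C3 * (√x * √x) := by ring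
      _ = C3 * x := by rw [Real.mul_self_sqrt hx0.le]
  rw [abs_le] at h4 ⊢
  constructor <;> nlinarith [h4.1, h4.2]

end

end Pool.Agent.H84.Pnt
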